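import Pool.Agent.P.MP_42d0fe_co.Defs

set_option autoImplicit false

namespace Pool.Agent.P.MP_42d0fe_co

open SimpleGraph

section general

variable {V : Type} (G : SimpleGraph V)

theorem subset_step (A : Set V) : A ⊆ step G A := Set.subset_union_left

theorem iter_mono (A : Set V) : Monotone fun t : ℕ => (step G)^[t] A := by
  apply monotone_nat_of_le_succ
  intro t
  rw [Function.iterate_succ_apply']
  exact subset_step G _

theorem percolates_iff (A : Set V) : Percolates G A ↔ ∀ v, ∃ t : ℕ, v ∈ (step G)^[t] A := by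
  unfold Percolates
  rw [Set.eq_univ_iff_forall]
  simp only [Set.mem_iUnion]

variable [Finite V]

/-- A rank function certifies percolation. -/
theorem percolates_of_rank {α : Type} [LinearOrder α] (A : Set V) (r : V → α)
    (h : ∀ v, v ∉ A → 3 ≤ (G.neighborSet v ∩ {w | r w < r v}).ncard) : Percolates G A := by
  rw [percolates_iff]
  have wf : WellFounded fun u v : V => r u < r v := by
    have : IsTrans V fun u v : V => r u < r v := ⟨fun _ _ _ => lt_trans⟩
    have : Std.Irrefl fun u v : V => r u < r v := ⟨fun _ => lt_irrefl _⟩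
    exact Finite.wellFounded_of_trans_of_irrefl _
  intro v
  induction v using wf.induction with
  | _ v ih =>
    by_cases hv : v ∈ A
    · exact ⟨0, hv⟩
    · classical
      choose! f hf using ih
      obtain ⟨T, hT⟩ := (Set.toFinite (Set.range f)).bddAbove
      refine ⟨T + 1, ?_⟩
      rw [Function.iterate_succ_apply']
      refine Or.inr ((h v hv).trans (Set.ncard_le_ncard ?_ (Set.toFinite _)))
      rintro w ⟨hw, hr⟩
      exact ⟨hw, iter_mono G A (hT ⟨w, rfl⟩) (hf w hr)⟩

/-- A percolating set gives a time function. -/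
theorem rank_of_percolates (A : Set V) (h : Percolates G A) :
    ∃ r : V → ℕ, ∀ v, v ∉ A → 3 ≤ (G.neighborSet v ∩ {w | r w < r v}).ncard := by
  classical
  rw [percolates_iff] at h
  refine ⟨fun v => Nat.find (h v), fun v hv => ?_⟩
  have h1 := Nat.find_spec (h v)
  have h2 := fun m => @Nat.find_min _ _ (h v) m
  generalize hn : Nat.find (h v) = n at h1 h2
  cases n with
  | zero => exact absurd h1 hv
  | succ n =>
    rw [Function.iterate_succ_apply'] at h1
    rcases h1 with h1 | h1
    · exact absurd h1 (h2 n (Nat.lt_succ_self n))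
    · refine le_trans h1 (Set.ncard_le_ncard ?_ (Set.toFinite _))
      rintro w ⟨hw, hr⟩
      refine ⟨hw, ?_⟩
      show Nat.find (h w) < Nat.find (h v)
      rw [hn]
      exact Nat.lt_succ_of_le (Nat.find_min' _ hr)

/-- A percolating set meets every nonempty set whose vertices have at most two neighbours
outside it. -/
theorem meets_block (A : Set V) (h : Percolates G A) (C : Set V) (hne : C.Nonempty)
    (hC : ∀ v ∈ C, (G.neighborSet v \ C).ncard ≤ 2) : (A ∩ C).Nonempty := by
  obtain ⟨r, hr⟩ := rank_of_percolates G A h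
  obtain ⟨v, hv, hmin⟩ := Set.exists_min_image C r (Set.toFinite _) hne
  refine ⟨v, ?_, hv⟩
  by_contra hA
  have h1 := hr v hA
  have h2 : (G.neighborSet v ∩ {w | r w < r v}).ncard ≤ (G.neighborSet v \ C).ncard := by
    refine Set.ncard_le_ncard ?_ (Set.toFinite _)
    rintro w ⟨hw, hlt⟩
    exact ⟨hw, fun hwC => absurd (hmin w hwC) (not_le.2 hlt)⟩
  have := hC v hv
  omega

theorem percolates_iso {W : Type} [Finite W] (H : SimpleGraph W) (e : G ≃g H) (A : Set V)
    (h : Percolates G A) : Percolates H (e '' A) := by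
  obtain ⟨r, hr⟩ := rank_of_percolates G A h
  refine percolates_of_rank H _ (fun w => r (e.symm w)) fun w hw => ?_
  have h1 : e.symm w ∉ A := fun hA => hw ⟨_, hA, by simp⟩
  refine (hr _ h1).trans ?_
  rw [← Set.ncard_image_of_injective _ e.injective]
  refine Set.ncard_le_ncard ?_ (Set.toFinite _)
  rintro _ ⟨u, ⟨hu, hlt⟩, rfl⟩
  refine ⟨?_, by simpa using hlt⟩
  have := e.map_adj_iff.2 (show G.Adj (e.symm w) u from hu)
  simpa using this

end general

theorem grid_adj {a b c : ℕ} (u v : (Fin a × Fin b) × Fin c) : (grid a b c).Adj u v ↔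
    (((u.1.1.val + 1 = v.1.1.val ∨ v.1.1.val + 1 = u.1.1.val) ∧ u.1.2.val = v.1.2.val ∨
      (u.1.2.val + 1 = v.1.2.val ∨ v.1.2.val + 1 = u.1.2.val) ∧ u.1.1.val = v.1.1.val) ∧
      u.2.val = v.2.val) ∨
    (u.2.val + 1 = v.2.val ∨ v.2.val + 1 = u.2.val) ∧ u.1.1.val = v.1.1.val ∧
      u.1.2.val = v.1.2.val := by
  simp only [grid, boxProd_adj, pathGraph_adj, Prod.ext_iff, Fin.ext_iff]

/-- Sizes of percolating sets. -/
def Sz (a b c k : ℕ) : Prop :=
  ∃ A : Set ((Fin a × Fin b) × Fin c), A.ncard = k ∧ Percolates (grid a b c) A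

def iso12 (a b c : ℕ) : grid a b c ≃g grid b a c where
  toFun v := ((v.1.2, v.1.1), v.2)
  invFun v := ((v.1.2, v.1.1), v.2)
  left_inv _ := rfl
  right_inv _ := rfl
  map_rel_iff' := by
    intro u v
    simp only [grid_adj, Equiv.coe_fn_mk]
    omega

def iso23 (a b c : ℕ) : grid a b c ≃g grid a c b where
  toFun v := ((v.1.1, v.2), v.1.2)
  invFun v := ((v.1.1, v.2), v.1.2)
  left_inv _ := rfl
  right_inv _ := rfl
  map_rel_iff' := by
    intro u v
    simp only [grid_adj, Equiv.coe_fn_mk]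
    omega

theorem Sz.swap12 {a b c k : ℕ} (h : Sz a b c k) : Sz b a c k := by
  obtain ⟨A, h1, h2⟩ := h
  exact ⟨iso12 a b c '' A, by rw [Set.ncard_image_of_injective _ (iso12 a b c).injective, h1],
    percolates_iso _ _ _ _ h2⟩

theorem Sz.swap23 {a b c k : ℕ} (h : Sz a b c k) : Sz a c b k := by
  obtain ⟨A, h1, h2⟩ := h
  exact ⟨iso23 a b c '' A, by rw [Set.ncard_image_of_injective _ (iso23 a b c).injective, h1],
    percolates_iso _ _ _ _ h2⟩

theorem s3_swap12 (a b c : ℕ) : s3 a b c = s3 b a c := by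
  unfold s3
  congr 1
  ext k
  exact ⟨Sz.swap12, Sz.swap12⟩

theorem s3_swap23 (a b c : ℕ) : s3 a b c = s3 a c b := by
  unfold s3
  congr 1
  ext k
  exact ⟨Sz.swap23, Sz.swap23⟩

theorem s3_eq {a b c k : ℕ} (h1 : Sz a b c k) (h2 : ∀ m, Sz a b c m → k ≤ m) : s3 a b c = k :=
  IsLeast.csInf_eq ⟨h1, h2⟩

end Pool.Agent.P.MP_42d0fe_co
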