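import Pool.Agent.P.MP_42d0fe_co.Fam

set_option autoImplicit false

namespace Pool.Agent.P.MP_42d0fe_co

def allGood (l : List (ℕ × ℕ × ℕ × ℕ × ℕ)) (c : ℕ) : Bool :=
  l.all fun f => good f.1 f.2.1 f.2.2.1 f.2.2.2.1 c f.2.2.2.2

def cov1 (n a : ℕ) : Bool := Nat.ble n a && Nat.beq (a % 6) (n % 6)

def cov (l : List (ℕ × ℕ × ℕ × ℕ × ℕ)) (a b : ℕ) : Bool :=
  l.any fun f => (cov1 (f.1 + f.2.1) a && cov1 (f.2.2.1 + f.2.2.2.1) b) ||
    (cov1 (f.1 + f.2.1) b && cov1 (f.2.2.1 + f.2.2.2.1) a)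

theorem cov1_spec {n a x : ℕ} (h : cov1 n a = true) (h1 : a ≤ x) (h2 : x % 6 = a % 6) :
    x = n + 6 * ((x - n) / 6) := by
  unfold cov1 at h
  rw [Bool.and_eq_true, Nat.ble_eq, Nat.beq_eq] at h
  omega

theorem cov_sound {l : List (ℕ × ℕ × ℕ × ℕ × ℕ)} {c a b x y : ℕ} (hl : allGood l c = true)
    (h : cov l a b = true) (h1 : a ≤ x) (h2 : x % 6 = a % 6) (h3 : b ≤ y) (h4 : y % 6 = b % 6) :
    Opt x y c := by
  unfold cov at h
  unfold allGood at hl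
  rw [List.any_eq_true] at h
  rw [List.all_eq_true] at hl
  obtain ⟨f, hf, h⟩ := h
  have hg := good_sound (hl f hf)
  rw [Bool.or_eq_true, Bool.and_eq_true, Bool.and_eq_true] at h
  rcases h with ⟨p, q⟩ | ⟨p, q⟩
  · rw [cov1_spec p h1 h2, cov1_spec q h3 h4]
    exact hg _ _
  · rw [cov1_spec q h1 h2, cov1_spec p h3 h4]
    exact (hg _ _).swap12

theorem cov_window {l : List (ℕ × ℕ × ℕ × ℕ × ℕ)} {c lo x y : ℕ} (hl : allGood l c = true)
    (h : (allB 6 fun a => allB 6 fun b => cov l (lo + a) (lo + b)) = true) (hx : lo ≤ x)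
    (hy : lo ≤ y) : Opt x y c :=
  cov_sound hl (allB_spec (allB_spec h ((x - lo) % 6) (by omega)) ((y - lo) % 6) (by omega))
    (by omega) (by omega) (by omega) (by omega)

end Pool.Agent.P.MP_42d0fe_co
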