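import Mathlib

set_option autoImplicit false

namespace Pool.Agent.P.MP_42d0fe_co

open SimpleGraph

/-- The `a × b × c` grid: the Cartesian product of three path graphs. -/
def grid (a b c : ℕ) : SimpleGraph ((Fin a × Fin b) × Fin c) :=
  (pathGraph a □ pathGraph b) □ pathGraph c

/-- One round of 3-neighbour bootstrap percolation: infected vertices stay infected, and every
vertex with at least 3 infected neighbours becomes infected. -/
def step {V : Type} (G : SimpleGraph V) (A : Set V) : Set V :=
  A ∪ {v | 3 ≤ (G.neighborSet v ∩ A).ncard}

/-- `A` percolates: the union of the infected sets over all rounds is the whole vertex set. -/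
def Percolates {V : Type} (G : SimpleGraph V) (A : Set V) : Prop :=
  ⋃ t : ℕ, (step G)^[t] A = Set.univ

/-- The minimum size of a percolating set of the `a × b × c` grid. -/
noncomputable def s3 (a b c : ℕ) : ℕ :=
  sInf {k | ∃ A : Set ((Fin a × Fin b) × Fin c), A.ncard = k ∧ Percolates (grid a b c) A}

end Pool.Agent.P.MP_42d0fe_co
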