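import Pool.Agent.P.MP_42d0fe_co.Basic

set_option autoImplicit false

namespace Pool.Agent.P.MP_42d0fe_co

open SimpleGraph

/-! Doubly periodic families of percolating sets, certified by lexicographic potentials. -/

def allB (n : ℕ) (f : ℕ → Bool) : Bool := Nat.rec true (fun k r => f k && r) n

def sumB (n : ℕ) (f : ℕ → ℕ) : ℕ := Nat.rec 0 (fun k r => f k + r) n

theorem allB_spec {n : ℕ} {f : ℕ → Bool} (h : allB n f = true) : ∀ k < n, f k = true := by
  induction n with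
  | zero => intro k hk; omega
  | succ n ih =>
    have h' : (f n && allB n f) = true := h
    rw [Bool.and_eq_true] at h'
    intro k hk
    rcases Nat.lt_succ_iff_lt_or_eq.1 hk with hk | rfl
    · exact ih h'.2 k hk
    · exact h'.1

theorem sumB_eq (n : ℕ) (f : ℕ → ℕ) : sumB n f = ∑ k ∈ Finset.range n, f k := by
  induction n with
  | zero => rfl
  | succ n ih =>
    rw [Finset.sum_range_succ, ← ih, add_comm (sumB n f)]
    rfl

def tau (L i x : ℕ) : ℕ :=
  if x < L then x else if x < L + 6 * i then L + (x - L) % 6 else x + 6 - 6 * i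

def blk (L i x : ℕ) : ℕ :=
  if x < L then 0 else if x < L + 6 * i then (x - L) / 6 + 1 else i + 1

def ltc (u v p q : ℕ) : Bool :=
  Nat.blt (u % 32) (v % 32) ||
    (Nat.beq (u % 2048) (v % 2048) && Nat.blt (u / 2048 + p) (v / 2048 + q))

def fwd (g : ℕ → ℕ) (L T t v s : ℕ) : Bool :=
  bif Nat.beq (t + 1) L || Nat.beq t (L + 5) then
    ltc (g L) v (16 * s) 48 && ltc (g (L + 6)) v (16 * s) 48
  else Nat.blt (t + 1) T && ltc (g (t + 1)) v 0 0

def bwd (g : ℕ → ℕ) (L t v s : ℕ) : Bool :=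
  bif Nat.beq t L || Nat.beq t (L + 6) then
    ltc (g (L - 1)) v 48 (16 * s) && ltc (g (L + 5)) v 48 (16 * s)
  else Nat.blt 0 t && ltc (g (t - 1)) v 0 0

theorem tau_lt {L R i x : ℕ} (hx : x < L + R + 6 * i) : tau L i x < L + 6 + R := by
  unfold tau
  split_ifs <;> omega

theorem fwd_sound {g : ℕ → ℕ} {L R i x v s : ℕ} (hR : 1 ≤ R) (hx : x < L + R + 6 * i)
    (h : fwd g L (L + 6 + R) (tau L i x) v s = true) :
    x + 1 < L + R + 6 * i ∧
      (blk L i (x + 1) = blk L i x + 1 ∧ ltc (g (tau L i (x + 1))) v (16 * s) 48 = true ∨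
        blk L i (x + 1) = blk L i x ∧ ltc (g (tau L i (x + 1))) v 0 0 = true) := by
  unfold fwd at h
  by_cases hc : tau L i x + 1 = L ∨ tau L i x = L + 5
  · have hb : (Nat.beq (tau L i x + 1) L || Nat.beq (tau L i x) (L + 5)) = true := by
      simpa using hc
    rw [hb, cond_true, Bool.and_eq_true] at h
    have h1 : x + 1 < L + R + 6 * i ∧ blk L i (x + 1) = blk L i x + 1 ∧
        (tau L i (x + 1) = L ∨ tau L i (x + 1) = L + 6) := by
      revert hc
      unfold tau blk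
      split_ifs <;> omega
    refine ⟨h1.1, Or.inl ⟨h1.2.1, ?_⟩⟩
    rcases h1.2.2 with e | e <;> rw [e]
    exacts [h.1, h.2]
  · have hb : (Nat.beq (tau L i x + 1) L || Nat.beq (tau L i x) (L + 5)) = false := by
      rw [← Bool.not_eq_true, Bool.or_eq_true, Nat.beq_eq, Nat.beq_eq]
      exact hc
    rw [hb, cond_false, Bool.and_eq_true, Nat.blt_eq] at h
    have h0 := h.1
    have h1 : x + 1 < L + R + 6 * i ∧ blk L i (x + 1) = blk L i x ∧
        tau L i (x + 1) = tau L i x + 1 := by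
      revert hc h0
      unfold tau blk
      split_ifs <;> omega
    refine ⟨h1.1, Or.inr ⟨h1.2.1, ?_⟩⟩
    rw [h1.2.2]
    exact h.2

theorem bwd_sound {g : ℕ → ℕ} {L i x v s : ℕ} (hL : 1 ≤ L)
    (h : bwd g L (tau L i x) v s = true) :
    0 < x ∧
      (blk L i (x - 1) + 1 = blk L i x ∧ ltc (g (tau L i (x - 1))) v 48 (16 * s) = true ∨
        blk L i (x - 1) = blk L i x ∧ ltc (g (tau L i (x - 1))) v 0 0 = true) := by
  unfold bwd at h
  by_cases hc : tau L i x = L ∨ tau L i x = L + 6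
  · have hb : (Nat.beq (tau L i x) L || Nat.beq (tau L i x) (L + 6)) = true := by
      simpa using hc
    rw [hb, cond_true, Bool.and_eq_true] at h
    have h1 : 0 < x ∧ blk L i (x - 1) + 1 = blk L i x ∧
        (tau L i (x - 1) = L - 1 ∨ tau L i (x - 1) = L + 5) := by
      revert hc
      unfold tau blk
      split_ifs <;> omega
    refine ⟨h1.1, Or.inl ⟨h1.2.1, ?_⟩⟩
    rcases h1.2.2 with e | e <;> rw [e]
    exacts [h.1, h.2]
  · have hb : (Nat.beq (tau L i x) L || Nat.beq (tau L i x) (L + 6)) = false := by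
      rw [← Bool.not_eq_true, Bool.or_eq_true, Nat.beq_eq, Nat.beq_eq]
      exact hc
    rw [hb, cond_false, Bool.and_eq_true, Nat.blt_eq] at h
    have h0 := h.1
    have h1 : 0 < x ∧ blk L i (x - 1) = blk L i x ∧
        tau L i (x - 1) = tau L i x - 1 := by
      revert hc h0
      unfold tau blk
      split_ifs <;> omega
    refine ⟨h1.1, Or.inr ⟨h1.2.1, ?_⟩⟩
    rw [h1.2.2]
    exact h.2

def rk (v X Y : ℕ) : ℕ ×ₗ ℤ :=
  toLex (v % 32, ((v / 2048 : ℕ) : ℤ) + 16 * (((v / 32 % 8 : ℕ) : ℤ) - 3) * X +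
    16 * (((v / 256 % 8 : ℕ) : ℤ) - 3) * Y)

theorem ltc_sound {u v p q X Y X' Y' : ℕ} (h : ltc u v p q = true)
    (e : (p : ℤ) - q = 16 * (((v / 32 % 8 : ℕ) : ℤ) - 3) * ((X' : ℤ) - X) +
      16 * (((v / 256 % 8 : ℕ) : ℤ) - 3) * ((Y' : ℤ) - Y)) : rk u X' Y' < rk v X Y := by
  unfold ltc at h
  rw [Bool.or_eq_true, Bool.and_eq_true, Nat.blt_eq, Nat.blt_eq, Nat.beq_eq] at h
  unfold rk
  rw [Prod.Lex.toLex_lt_toLex]
  rcases h with h | ⟨h1, h2⟩
  · exact Or.inl h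
  · have e1 : u % 32 = v % 32 := by omega
    have e2 : u / 32 % 8 = v / 32 % 8 := by omega
    have e3 : u / 256 % 8 = v / 256 % 8 := by omega
    refine Or.inr ⟨e1, ?_⟩
    have h3 : ((u / 2048 : ℕ) : ℤ) + p < ((v / 2048 : ℕ) : ℤ) + q := by exact_mod_cast h2
    show ((u / 2048 : ℕ) : ℤ) + 16 * (((u / 32 % 8 : ℕ) : ℤ) - 3) * X' +
      16 * (((u / 256 % 8 : ℕ) : ℤ) - 3) * Y' < ((v / 2048 : ℕ) : ℤ) +
      16 * (((v / 32 % 8 : ℕ) : ℤ) - 3) * X + 16 * (((v / 256 % 8 : ℕ) : ℤ) - 3) * Y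
    rw [e2, e3]
    linarith

def cel (D T1 T2 x y z : ℕ) : ℕ := (D >>> (18 * (x + T1 * (y + T2 * z)))) % 262144

def cnt6 (b1 b2 b3 b4 b5 b6 : Bool) : ℕ :=
  b1.toNat + b2.toNat + b3.toNat + b4.toNat + b5.toNat + b6.toNat

def okV (g : ℕ → ℕ → ℕ → ℕ) (L1 T1 L2 T2 c x y z v : ℕ) : Bool :=
  Nat.beq (v % 32) 0 || Nat.ble 3 (cnt6
    (fwd (fun t => g t y z) L1 T1 x v (v / 32 % 8)) (bwd (fun t => g t y z) L1 x v (v / 32 % 8))
    (fwd (fun t => g x t z) L2 T2 y v (v / 256 % 8)) (bwd (fun t => g x t z) L2 y v (v / 256 % 8))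
    (Nat.blt (z + 1) c && ltc (g x y (z + 1)) v 0 0) (Nat.blt 0 z && ltc (g x y (z - 1)) v 0 0))

def validG (g : ℕ → ℕ → ℕ → ℕ) (L1 T1 L2 T2 c : ℕ) : Bool :=
  allB T1 fun x => allB T2 fun y => allB c fun z => okV g L1 T1 L2 T2 c x y z (g x y z)

theorem three_le_ncard {a b c : ℕ} (P : (Fin a × Fin b) × Fin c → Prop) (x : Fin a) (y : Fin b)
    (z : Fin c) (b1 b2 b3 b4 b5 b6 : Bool) (h : 3 ≤ cnt6 b1 b2 b3 b4 b5 b6)
    (h1 : b1 = true → ∃ x' : Fin a, x'.val = x.val + 1 ∧ P ((x', y), z))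
    (h2 : b2 = true → ∃ x' : Fin a, x'.val + 1 = x.val ∧ P ((x', y), z))
    (h3 : b3 = true → ∃ y' : Fin b, y'.val = y.val + 1 ∧ P ((x, y'), z))
    (h4 : b4 = true → ∃ y' : Fin b, y'.val + 1 = y.val ∧ P ((x, y'), z))
    (h5 : b5 = true → ∃ z' : Fin c, z'.val = z.val + 1 ∧ P ((x, y), z'))
    (h6 : b6 = true → ∃ z' : Fin c, z'.val + 1 = z.val ∧ P ((x, y), z')) :
    3 ≤ ((grid a b c).neighborSet ((x, y), z) ∩ {w | P w}).ncard := by
  classical
  let dir : (Fin a × Fin b) × Fin c → Fin 6 := fun w =>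
    if x.val < w.1.1.val then 0 else if w.1.1.val < x.val then 1 else
    if y.val < w.1.2.val then 2 else if w.1.2.val < y.val then 3 else
    if z.val < w.2.val then 4 else 5
  let F : Finset (Fin 6) := Finset.univ.filter fun k => ![b1, b2, b3, b4, b5, b6] k = true
  have hF : 3 ≤ F.card := by
    revert h
    simp only [F]
    cases b1 <;> cases b2 <;> cases b3 <;> cases b4 <;> cases b5 <;> cases b6 <;> decide
  refine hF.trans ?_
  rw [← Set.ncard_coe_finset]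
  refine le_trans (Set.ncard_le_ncard ?_ (Set.toFinite _))
    (Set.ncard_image_le (f := dir) (Set.toFinite _))
  intro k hk
  have hk' : ![b1, b2, b3, b4, b5, b6] k = true := by simpa [F] using hk
  fin_cases k
  · obtain ⟨w, e, hw⟩ := h1 hk'
    refine ⟨_, ⟨?_, hw⟩, ?_⟩
    · rw [mem_neighborSet, grid_adj]; dsimp only; omega
    · simp only [dir]; rw [if_pos (by omega)]; rfl
  · obtain ⟨w, e, hw⟩ := h2 hk'
    refine ⟨_, ⟨?_, hw⟩, ?_⟩
    · rw [mem_neighborSet, grid_adj]; dsimp only; omega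
    · simp only [dir]; rw [if_neg (by omega), if_pos (by omega)]; rfl
  · obtain ⟨w, e, hw⟩ := h3 hk'
    refine ⟨_, ⟨?_, hw⟩, ?_⟩
    · rw [mem_neighborSet, grid_adj]; dsimp only; omega
    · simp only [dir]; rw [if_neg (by omega), if_neg (by omega), if_pos (by omega)]; rfl
  · obtain ⟨w, e, hw⟩ := h4 hk'
    refine ⟨_, ⟨?_, hw⟩, ?_⟩
    · rw [mem_neighborSet, grid_adj]; dsimp only; omega
    · simp only [dir]
      rw [if_neg (by omega), if_neg (by omega), if_neg (by omega), if_pos (by omega)]; rfl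
  · obtain ⟨w, e, hw⟩ := h5 hk'
    refine ⟨_, ⟨?_, hw⟩, ?_⟩
    · rw [mem_neighborSet, grid_adj]; dsimp only; omega
    · simp only [dir]
      rw [if_neg (by omega), if_neg (by omega), if_neg (by omega), if_neg (by omega),
        if_pos (by omega)]; rfl
  · obtain ⟨w, e, hw⟩ := h6 hk'
    refine ⟨_, ⟨?_, hw⟩, ?_⟩
    · rw [mem_neighborSet, grid_adj]; dsimp only; omega
    · simp only [dir]
      rw [if_neg (by omega), if_neg (by omega), if_neg (by omega), if_neg (by omega),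
        if_neg (by omega)]; rfl

theorem valid_percolates {g : ℕ → ℕ → ℕ → ℕ} {L1 R1 L2 R2 c : ℕ} (hL1 : 1 ≤ L1) (hR1 : 1 ≤ R1)
    (hL2 : 1 ≤ L2) (hR2 : 1 ≤ R2) (h : validG g L1 (L1 + 6 + R1) L2 (L2 + 6 + R2) c = true)
    (i j : ℕ) : Percolates (grid (L1 + R1 + 6 * i) (L2 + R2 + 6 * j) c)
      {v | g (tau L1 i v.1.1.val) (tau L2 j v.1.2.val) v.2.val % 32 = 0} := by
  refine percolates_of_rank _ _ (fun v => rk (g (tau L1 i v.1.1.val) (tau L2 j v.1.2.val) v.2.val)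
    (blk L1 i v.1.1.val) (blk L2 j v.1.2.val)) ?_
  rintro ⟨⟨x, y⟩, z⟩ hv
  have hk := allB_spec (allB_spec (allB_spec h _ (tau_lt x.2)) _ (tau_lt y.2)) _ z.2
  unfold okV at hk
  rw [Bool.or_eq_true, Nat.beq_eq, Nat.ble_eq] at hk
  rcases hk with hk | hk
  · exact absurd hk hv
  refine three_le_ncard _ x y z _ _ _ _ _ _ hk ?_ ?_ ?_ ?_ ?_ ?_
  · intro hb
    obtain ⟨h1, h2⟩ := fwd_sound hR1 x.2 hb
    refine ⟨⟨x.val + 1, h1⟩, rfl, ?_⟩
    rcases h2 with ⟨e, h2⟩ | ⟨e, h2⟩ <;> refine ltc_sound h2 ?_ <;> simp only [e] <;>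
      push_cast <;> ring
  · intro hb
    obtain ⟨h1, h2⟩ := bwd_sound hL1 hb
    refine ⟨⟨x.val - 1, by omega⟩, by simp only; omega, ?_⟩
    rcases h2 with ⟨e, h2⟩ | ⟨e, h2⟩ <;> refine ltc_sound h2 ?_ <;> simp only [← e] <;>
      push_cast <;> ring
  · intro hb
    obtain ⟨h1, h2⟩ := fwd_sound hR2 y.2 hb
    refine ⟨⟨y.val + 1, h1⟩, rfl, ?_⟩
    rcases h2 with ⟨e, h2⟩ | ⟨e, h2⟩ <;> refine ltc_sound h2 ?_ <;> simp only [e] <;>
      push_cast <;> ring
  · intro hb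
    obtain ⟨h1, h2⟩ := bwd_sound hL2 hb
    refine ⟨⟨y.val - 1, by omega⟩, by simp only; omega, ?_⟩
    rcases h2 with ⟨e, h2⟩ | ⟨e, h2⟩ <;> refine ltc_sound h2 ?_ <;> simp only [← e] <;>
      push_cast <;> ring
  · intro hb
    rw [Bool.and_eq_true, Nat.blt_eq] at hb
    refine ⟨⟨z.val + 1, hb.1⟩, rfl, ltc_sound hb.2 ?_⟩
    simp
  · intro hb
    rw [Bool.and_eq_true, Nat.blt_eq] at hb
    have := hb.1
    refine ⟨⟨z.val - 1, by omega⟩, by simp only; omega, ltc_sound hb.2 ?_⟩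
    simp

def edgeS (L R : ℕ) (f : ℕ → ℕ) : ℕ := sumB L f + sumB R fun t => f (L + 6 + t)

def perS (L : ℕ) (f : ℕ → ℕ) : ℕ := sumB 6 fun t => f (L + t)

theorem sum_mod6 (f : ℕ → ℕ) (i : ℕ) :
    ∑ s ∈ Finset.range (6 * i), f (s % 6) = i * ∑ s ∈ Finset.range 6, f s := by
  induction i with
  | zero => simp
  | succ i ih =>
    rw [Nat.mul_succ, Finset.sum_range_add (fun s => f (s % 6)), ih, Nat.succ_mul i]
    refine congrArg (fun t => i * ∑ s ∈ Finset.range 6, f s + t) ?_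
    refine Finset.sum_congr rfl fun s hs => ?_
    rw [Finset.mem_range] at hs
    congr 1
    omega

theorem sum_tau (L R i : ℕ) (f : ℕ → ℕ) :
    ∑ x : Fin (L + R + 6 * i), f (tau L i x.val) = edgeS L R f + i * perS L f := by
  rw [Fin.sum_univ_eq_sum_range (fun x => f (tau L i x)),
    show L + R + 6 * i = L + 6 * i + R by omega, Finset.sum_range_add, Finset.sum_range_add]
  unfold edgeS perS
  simp only [sumB_eq]
  rw [← sum_mod6 (fun t => f (L + t)) i]
  have e1 : ∑ x ∈ Finset.range L, f (tau L i x) = ∑ x ∈ Finset.range L, f x := by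
    refine Finset.sum_congr rfl fun s hs => ?_
    rw [Finset.mem_range] at hs
    unfold tau
    rw [if_pos hs]
  have e2 : ∑ x ∈ Finset.range (6 * i), f (tau L i (L + x)) =
      ∑ x ∈ Finset.range (6 * i), f (L + x % 6) := by
    refine Finset.sum_congr rfl fun s hs => ?_
    rw [Finset.mem_range] at hs
    unfold tau
    rw [if_neg (by omega), if_pos (by omega), Nat.add_sub_cancel_left]
  have e3 : ∑ x ∈ Finset.range R, f (tau L i (L + 6 * i + x)) =
      ∑ x ∈ Finset.range R, f (L + 6 + x) := by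
    refine Finset.sum_congr rfl fun s hs => ?_
    unfold tau
    rw [if_neg (by omega), if_neg (by omega)]
    congr 1
    omega
  rw [e1, e2, e3]
  omega

def colS (g : ℕ → ℕ → ℕ → ℕ) (c x y : ℕ) : ℕ :=
  sumB c fun z => bif Nat.beq (g x y z % 32) 0 then 1 else 0

theorem edgeS_lin (L R j : ℕ) (f g : ℕ → ℕ) :
    edgeS L R (fun x => f x + j * g x) = edgeS L R f + j * edgeS L R g := by
  unfold edgeS
  simp only [sumB_eq, Finset.sum_add_distrib, ← Finset.mul_sum]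
  ring

theorem perS_lin (L j : ℕ) (f g : ℕ → ℕ) :
    perS L (fun x => f x + j * g x) = perS L f + j * perS L g := by
  unfold perS
  simp only [sumB_eq, Finset.sum_add_distrib, ← Finset.mul_sum]

theorem fam_ncard (g : ℕ → ℕ → ℕ → ℕ) (L1 R1 L2 R2 c i j : ℕ) :
    ({v | g (tau L1 i v.1.1.val) (tau L2 j v.1.2.val) v.2.val % 32 = 0} :
      Set ((Fin (L1 + R1 + 6 * i) × Fin (L2 + R2 + 6 * j)) × Fin c)).ncard =
    edgeS L1 R1 (fun x => edgeS L2 R2 (colS g c x)) +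
      j * edgeS L1 R1 (fun x => perS L2 (colS g c x)) +
      i * (perS L1 (fun x => edgeS L2 R2 (colS g c x)) +
        j * perS L1 (fun x => perS L2 (colS g c x))) := by
  classical
  rw [← edgeS_lin, ← perS_lin,
    ← sum_tau L1 R1 i fun x => edgeS L2 R2 (colS g c x) + j * perS L2 (colS g c x)]
  rw [Set.ncard_eq_toFinset_card', Set.toFinset_ofPred, Finset.card_filter, Fintype.sum_prod_type,
    Fintype.sum_prod_type]
  refine Finset.sum_congr rfl fun x _ => ?_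
  rw [← sum_tau L2 R2 j (colS g c (tau L1 i x.val))]
  refine Finset.sum_congr rfl fun y _ => ?_
  unfold colS
  rw [sumB_eq, ← Fin.sum_univ_eq_sum_range
    (fun z => bif Nat.beq (g (tau L1 i x.val) (tau L2 j y.val) z % 32) 0 then 1 else 0)]
  refine Finset.sum_congr rfl fun z _ => ?_
  by_cases h : g (tau L1 i x.val) (tau L2 j y.val) z.val % 32 = 0
  · rw [if_pos h, h]; rfl
  · have hb : Nat.beq (g (tau L1 i x.val) (tau L2 j y.val) z.val % 32) 0 = false := by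
      rw [← Bool.not_eq_true, Nat.beq_eq]
      exact h
    rw [if_neg h, hb]; rfl

/-- The certificate check for a family meeting prescribed counts. -/
def goodG (g : ℕ → ℕ → ℕ → ℕ) (L1 R1 L2 R2 c n00 n10 n01 n11 : ℕ) : Bool :=
  Nat.ble 1 L1 && Nat.ble 1 R1 && Nat.ble 1 L2 && Nat.ble 1 R2 &&
    validG g L1 (L1 + 6 + R1) L2 (L2 + 6 + R2) c &&
    Nat.beq (edgeS L1 R1 (fun x => edgeS L2 R2 (colS g c x))) n00 &&
    Nat.beq (perS L1 (fun x => edgeS L2 R2 (colS g c x))) n10 &&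
    Nat.beq (edgeS L1 R1 (fun x => perS L2 (colS g c x))) n01 &&
    Nat.beq (perS L1 (fun x => perS L2 (colS g c x))) n11

theorem goodG_sound {g : ℕ → ℕ → ℕ → ℕ} {L1 R1 L2 R2 c n00 n10 n01 n11 : ℕ}
    (h : goodG g L1 R1 L2 R2 c n00 n10 n01 n11 = true) (i j : ℕ) :
    Sz (L1 + R1 + 6 * i) (L2 + R2 + 6 * j) c (n00 + j * n01 + i * (n10 + j * n11)) := by
  unfold goodG at h
  simp only [Bool.and_eq_true, Nat.ble_eq, Nat.beq_eq] at h
  obtain ⟨⟨⟨⟨⟨⟨⟨⟨h1, h2⟩, h3⟩, h4⟩, h5⟩, h6⟩, h7⟩, h8⟩, h9⟩ := h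
  refine ⟨_, ?_, valid_percolates h1 h2 h3 h4 h5 i j⟩
  rw [fam_ncard, h6, h7, h8, h9]

/-- The check for a family meeting the surface bound. -/
def good (L1 R1 L2 R2 c D : ℕ) : Bool :=
  goodG (cel D (L1 + 6 + R1) (L2 + 6 + R2)) L1 R1 L2 R2 c
    (((L1 + R1) * (L2 + R2) + (L1 + R1) * c + (L2 + R2) * c + 2) / 3)
    (2 * (L2 + R2 + c)) (2 * (L1 + R1 + c)) 12

/-- The surface bound is met. -/
def Opt (a b c : ℕ) : Prop := Sz a b c ((a * b + a * c + b * c + 2) / 3)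

theorem good_sound {L1 R1 L2 R2 c D : ℕ} (h : good L1 R1 L2 R2 c D = true) (i j : ℕ) :
    Opt (L1 + R1 + 6 * i) (L2 + R2 + 6 * j) c := by
  have h1 := goodG_sound h i j
  unfold Opt
  convert h1 using 1
  generalize L1 + R1 = a
  generalize L2 + R2 = b
  have : (a + 6 * i) * (b + 6 * j) + (a + 6 * i) * c + (b + 6 * j) * c + 2 =
      (a * b + a * c + b * c + 2) + 3 * (j * (2 * (a + c)) + i * (2 * (b + c) + j * 12)) := by
    ring
  rw [this, Nat.add_mul_div_left _ _ (by norm_num : 0 < 3)]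
  exact (add_assoc _ _ _).symm

theorem Opt.swap12 {a b c : ℕ} (h : Opt a b c) : Opt b a c := by
  have := Sz.swap12 h
  unfold Opt
  convert this using 2
  ring

end Pool.Agent.P.MP_42d0fe_co
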