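import Pool.Agent.P.MP_42d0fe_co.Basic

set_option autoImplicit false

namespace Pool.Agent.P.MP_42d0fe_co

open SimpleGraph

/-- Edge counting. -/
theorem edge_count {V : Type} [Fintype V] (G : SimpleGraph V) (A : Set V) (h : Percolates G A) :
    6 * Fintype.card V ≤ 6 * A.ncard + ∑ v, (G.neighborSet v).ncard := by
  classical
  obtain ⟨r, hr⟩ := rank_of_percolates G A h
  have e1 : ∀ (v : V) (P : V → Prop), (G.neighborSet v ∩ {w | P w}).ncard =
      ∑ w, if G.Adj v w ∧ P w then 1 else 0 := by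
    intro v P
    rw [← Finset.card_filter, ← Set.ncard_coe_finset]
    congr 1
    ext w
    simp
  have e2 : ∑ v, (G.neighborSet v ∩ {w | r w < r v}).ncard =
      ∑ v, (G.neighborSet v ∩ {w | r v < r w}).ncard := by
    simp only [e1]
    rw [Finset.sum_comm]
    refine Finset.sum_congr rfl fun v _ => Finset.sum_congr rfl fun w _ => ?_
    by_cases hc : G.Adj v w ∧ r v < r w
    · rw [if_pos hc, if_pos ⟨hc.1.symm, hc.2⟩]
    · rw [if_neg hc, if_neg fun h => hc ⟨h.1.symm, h.2⟩]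
  have e3 : ∀ v, (G.neighborSet v ∩ {w | r w < r v}).ncard +
      (G.neighborSet v ∩ {w | r v < r w}).ncard ≤ (G.neighborSet v).ncard := by
    intro v
    rw [← Set.ncard_union_eq _ (Set.toFinite _) (Set.toFinite _)]
    · exact Set.ncard_le_ncard (Set.union_subset Set.inter_subset_left Set.inter_subset_left)
        (Set.toFinite _)
    · rw [Set.disjoint_left]
      rintro w ⟨_, h1⟩ ⟨_, h2⟩
      exact lt_asymm (show r w < r v from h1) h2
  have e4 : ∑ v, ((G.neighborSet v ∩ {w | r w < r v}).ncard +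
      (G.neighborSet v ∩ {w | r v < r w}).ncard) ≤ ∑ v, (G.neighborSet v).ncard :=
    Finset.sum_le_sum fun v _ => e3 v
  rw [Finset.sum_add_distrib, ← e2] at e4
  have e5 : A.ncard = ∑ v, if v ∈ A then 1 else 0 := by
    rw [← Finset.card_filter, ← Set.ncard_coe_finset]
    congr 1
    ext w
    simp
  have e6 : ∑ _v : V, 3 ≤ ∑ v, (3 * (if v ∈ A then 1 else 0) +
      (G.neighborSet v ∩ {w | r w < r v}).ncard) := by
    refine Finset.sum_le_sum fun v _ => ?_
    by_cases hv : v ∈ A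
    · rw [if_pos hv]; omega
    · have := hr v hv
      omega
  rw [Finset.sum_add_distrib, ← Finset.mul_sum, ← e5, Finset.sum_const, Finset.card_univ,
    smul_eq_mul] at e6
  omega

def dp (n x : ℕ) : ℕ := (if x + 1 < n then 1 else 0) + (if 0 < x then 1 else 0)

theorem path_deg (n : ℕ) (x : Fin n) : ((pathGraph n).neighborSet x).ncard ≤ dp n x.val := by
  have h0 : (pathGraph n).neighborSet x ⊆ {w | x.val + 1 = w.val} ∪ {w | w.val + 1 = x.val} := by
    intro w hw
    rw [mem_neighborSet, pathGraph_adj] at hw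
    exact hw
  refine (Set.ncard_le_ncard h0 (Set.toFinite _)).trans ((Set.ncard_union_le _ _).trans ?_)
  unfold dp
  refine Nat.add_le_add ?_ ?_
  · split_ifs with h
    · rw [Set.ncard_le_one (Set.toFinite _)]
      intro a ha b hb
      exact Fin.ext (by rw [Set.mem_ofPred_eq] at ha hb; omega)
    · rw [Nat.le_zero, Set.ncard_eq_zero (Set.toFinite _), Set.eq_empty_iff_forall_notMem]
      intro w hw
      rw [Set.mem_ofPred_eq] at hw
      have := w.2
      omega
  · split_ifs with h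
    · rw [Set.ncard_le_one (Set.toFinite _)]
      intro a ha b hb
      exact Fin.ext (by rw [Set.mem_ofPred_eq] at ha hb; omega)
    · rw [Nat.le_zero, Set.ncard_eq_zero (Set.toFinite _), Set.eq_empty_iff_forall_notMem]
      intro w hw
      rw [Set.mem_ofPred_eq] at hw
      omega

theorem box_deg {α β : Type} [Finite α] [Finite β] (G : SimpleGraph α) (H : SimpleGraph β)
    (x : α × β) : ((G □ H).neighborSet x).ncard ≤
      (G.neighborSet x.1).ncard + (H.neighborSet x.2).ncard := by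
  rw [neighborSet_boxProd]
  refine (Set.ncard_union_le _ _).trans ?_
  rw [Set.ncard_prod, Set.ncard_prod, Set.ncard_singleton, Set.ncard_singleton]
  omega

theorem grid_deg {a b c : ℕ} (v : (Fin a × Fin b) × Fin c) :
    ((grid a b c).neighborSet v).ncard ≤ dp a v.1.1.val + dp b v.1.2.val + dp c v.2.val :=
  (box_deg _ _ v).trans (Nat.add_le_add
    ((box_deg _ _ v.1).trans (Nat.add_le_add (path_deg _ _) (path_deg _ _))) (path_deg _ _))

theorem sum_dp (m : ℕ) : ∑ x : Fin (m + 1), dp (m + 1) x.val = 2 * m := by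
  rw [Fin.sum_univ_eq_sum_range (fun x => dp (m + 1) x)]
  unfold dp
  rw [Finset.sum_add_distrib, Finset.sum_range_succ, Finset.sum_range_succ']
  have e1 : ∑ x ∈ Finset.range m, (if x + 1 < m + 1 then 1 else 0) = ∑ _x ∈ Finset.range m, 1 :=
    Finset.sum_congr rfl fun x hx => by rw [if_pos (by simpa using hx)]
  have e2 : ∑ x ∈ Finset.range m, (if 0 < x + 1 then 1 else 0) = ∑ _x ∈ Finset.range m, 1 :=
    Finset.sum_congr rfl fun x _ => by rw [if_pos (by omega)]
  rw [e1, e2]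
  simp
  omega

theorem surface_bound {a b c k : ℕ} (ha : 1 ≤ a) (hb : 1 ≤ b) (hc : 1 ≤ c) (h : Sz a b c k) :
    a * b + a * c + b * c ≤ 3 * k := by
  obtain ⟨A, rfl, hA⟩ := h
  have h1 := edge_count _ A hA
  have h2 : ∑ v, ((grid a b c).neighborSet v).ncard ≤
      ∑ v : (Fin a × Fin b) × Fin c, (dp a v.1.1.val + dp b v.1.2.val + dp c v.2.val) :=
    Finset.sum_le_sum fun v _ => grid_deg v
  obtain ⟨a, rfl⟩ : ∃ m, a = m + 1 := ⟨a - 1, by omega⟩
  obtain ⟨b, rfl⟩ : ∃ m, b = m + 1 := ⟨b - 1, by omega⟩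
  obtain ⟨c, rfl⟩ : ∃ m, c = m + 1 := ⟨c - 1, by omega⟩
  simp only [Fintype.sum_prod_type, Finset.sum_add_distrib, Finset.sum_const, Finset.card_univ,
    Fintype.card_fin, smul_eq_mul, ← Finset.mul_sum, sum_dp, Fintype.card_prod] at h1 h2
  nlinarith

/-! Hitting sets of blocking sets. -/

def search {W : Type} [DecidableEq W] (F : List (List W)) : ℕ → List W → Bool
  | 0, ch => F.any fun C => C.all fun v => decide (v ∉ ch)
  | k + 1, ch => F.any fun C => (C.all fun v => decide (v ∉ ch)) &&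
      C.all fun v => search F k (v :: ch)

theorem search_sound {W : Type} [DecidableEq W] (F : List (List W)) (B : Finset W)
    (hB : ∀ C ∈ F, ∃ v ∈ C, v ∈ B) : ∀ (k : ℕ) (ch : List W), search F k ch = true →
      (∀ v ∈ ch, v ∈ B) → ch.Nodup → ch.length + k < B.card := by
  intro k
  induction k with
  | zero =>
    intro ch h h1 h2
    simp only [search, List.any_eq_true, List.all_eq_true, decide_eq_true_eq] at h
    obtain ⟨C, hC, h⟩ := h
    obtain ⟨v, hv, hvB⟩ := hB C hC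
    have h3 : (v :: ch).Nodup := List.nodup_cons.2 ⟨h v hv, h2⟩
    have h4 : (v :: ch).toFinset ⊆ B := by
      intro u hu
      rcases List.mem_cons.1 (List.mem_toFinset.1 hu) with rfl | hu
      exacts [hvB, h1 u hu]
    have := Finset.card_le_card h4
    rw [List.toFinset_card_of_nodup h3, List.length_cons] at this
    omega
  | succ k ih =>
    intro ch h h1 h2
    simp only [search, List.any_eq_true, List.all_eq_true, decide_eq_true_eq,
      Bool.and_eq_true] at h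
    obtain ⟨C, hC, h, h'⟩ := h
    obtain ⟨v, hv, hvB⟩ := hB C hC
    have := ih (v :: ch) (h' v hv) (by
      intro u hu
      rcases List.mem_cons.1 hu with rfl | hu
      exacts [hvB, h1 u hu]) (List.nodup_cons.2 ⟨h v hv, h2⟩)
    rw [List.length_cons] at this
    omega

instance {a b c : ℕ} : DecidableRel (grid a b c).Adj := fun u v =>
  decidable_of_iff _ (grid_adj u v).symm

def blockB {p b c : ℕ} (D : (Fin p × Fin b) × Fin c → ℕ) (C : List ((Fin p × Fin b) × Fin c)) :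
    Bool :=
  decide (C ≠ []) &&
    C.all fun w => decide (D w ≤ 2 + (C.toFinset.filter fun u => (grid p b c).Adj w u).card)

def emb {n p b c : ℕ} (x0 : ℕ) (h : x0 + p ≤ n) (w : (Fin p × Fin b) × Fin c) :
    (Fin n × Fin b) × Fin c := ((⟨x0 + w.1.1.val, by have := w.1.1.2; omega⟩, w.1.2), w.2)

theorem emb_inj {n p b c : ℕ} (x0 : ℕ) (h : x0 + p ≤ n) :
    Function.Injective (emb (b := b) (c := c) x0 h) := by
  rintro ⟨⟨x, y⟩, z⟩ ⟨⟨x', y'⟩, z'⟩ e
  simp only [emb, Prod.mk.injEq, Fin.mk.injEq] at e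
  obtain ⟨⟨e1, rfl⟩, rfl⟩ := e
  rw [show x = x' from Fin.ext (by omega)]

open Classical in
noncomputable def layer {n b c : ℕ} (A : Set ((Fin n × Fin b) × Fin c)) (x : ℕ) : ℕ :=
  ∑ y : Fin b, ∑ z : Fin c, if h : x < n then (if ((⟨x, h⟩, y), z) ∈ A then 1 else 0) else 0

theorem ncard_layers {n b c : ℕ} (A : Set ((Fin n × Fin b) × Fin c)) :
    A.ncard = ∑ x ∈ Finset.range n, layer A x := by
  classical
  rw [← Fin.sum_univ_eq_sum_range]
  have e5 : A.ncard = ∑ v, if v ∈ A then 1 else 0 := by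
    rw [← Finset.card_filter, ← Set.ncard_coe_finset]
    congr 1
    ext w
    simp
  rw [e5, Fintype.sum_prod_type, Fintype.sum_prod_type]
  refine Finset.sum_congr rfl fun x _ => ?_
  unfold layer
  simp only [x.2, dif_pos, Fin.eta]

theorem slab_bound {n p b c : ℕ} (A : Set ((Fin n × Fin b) × Fin c))
    (hA : Percolates (grid n b c) A) (x0 : ℕ) (h : x0 + p ≤ n)
    (D : (Fin p × Fin b) × Fin c → ℕ)
    (hD : ∀ w, dp n (x0 + w.1.1.val) + dp b w.1.2.val + dp c w.2.val ≤ D w)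
    (F : List (List ((Fin p × Fin b) × Fin c))) (hF : F.all (blockB D) = true) (k : ℕ)
    (hs : search F k [] = true) : k < ∑ s ∈ Finset.range p, layer A (x0 + s) := by
  classical
  have h1 := search_sound F (Finset.univ.filter fun w => emb x0 h w ∈ A) ?_ k [] hs
    (by simp) List.nodup_nil
  · rw [List.length_nil, zero_add, Finset.card_filter, Fintype.sum_prod_type,
      Fintype.sum_prod_type] at h1
    rw [← Fin.sum_univ_eq_sum_range (fun s => layer A (x0 + s))]
    convert h1 using 2 with s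
    unfold layer
    have : x0 + s.val < n := by have := s.2; omega
    simp only [this, dif_pos, emb]
    refine Finset.sum_congr rfl fun y _ => Finset.sum_congr rfl fun z _ => ?_
    congr 1
  · intro C hC
    have hb := List.all_eq_true.1 hF C hC
    simp only [blockB, Bool.and_eq_true, decide_eq_true_eq, List.all_eq_true] at hb
    obtain ⟨hne, hb⟩ := hb
    obtain ⟨v, hvA, w, hw, rfl⟩ := meets_block _ A hA (emb x0 h '' {w | w ∈ C})
      (by
        obtain ⟨w, hw⟩ := List.exists_mem_of_ne_nil C hne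
        exact ⟨_, w, hw, rfl⟩)
      (by
        rintro _ ⟨w, hw, rfl⟩
        have h2 := hb w hw
        have h3 := grid_deg (emb x0 h w)
        have h4 := hD w
        have h5 := Set.ncard_inter_add_ncard_sdiff_eq_ncard
          ((grid n b c).neighborSet (emb x0 h w)) (emb x0 h '' {w | w ∈ C}) (Set.toFinite _)
        have h6 : (C.toFinset.filter fun u => (grid p b c).Adj w u).card ≤
            ((grid n b c).neighborSet (emb x0 h w) ∩ emb x0 h '' {w | w ∈ C}).ncard := by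
          rw [← Set.ncard_coe_finset, ← Set.ncard_image_of_injective _ (emb_inj x0 h)]
          refine Set.ncard_le_ncard ?_ (Set.toFinite _)
          rintro _ ⟨u, hu, rfl⟩
          simp only [Finset.coe_filter, List.mem_toFinset, Set.mem_ofPred_eq] at hu
          refine ⟨?_, u, hu.1, rfl⟩
          have h7 := hu.2
          rw [mem_neighborSet]
          rw [grid_adj] at h7 ⊢
          simp only [emb]
          omega
        simp only [emb] at h3 h5 h6 ⊢
        omega)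
    exact ⟨w, hw, by simpa using hvA⟩

def F332 : List (List ((Fin 3 × Fin 3) × Fin 2)) :=
  [[((0, 0), 0), ((0, 0), 1)],
   [((0, 2), 0), ((0, 2), 1)],
   [((2, 0), 0), ((2, 0), 1)],
   [((2, 2), 0), ((2, 2), 1)],
   [((0, 0), 0), ((0, 1), 0), ((0, 2), 0)],
   [((0, 0), 1), ((0, 1), 1), ((0, 2), 1)],
   [((0, 0), 0), ((1, 0), 0), ((2, 0), 0)],
   [((0, 0), 1), ((1, 0), 1), ((2, 0), 1)],
   [((0, 2), 0), ((1, 2), 0), ((2, 2), 0)],
   [((2, 0), 0), ((2, 1), 0), ((2, 2), 0)],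
   [((0, 2), 1), ((1, 2), 1), ((2, 2), 1)],
   [((2, 0), 1), ((2, 1), 1), ((2, 2), 1)],
   [((0, 0), 1), ((0, 1), 0), ((0, 1), 1), ((0, 2), 0)],
   [((0, 0), 0), ((0, 1), 0), ((0, 1), 1), ((0, 2), 1)],
   [((0, 0), 1), ((1, 0), 0), ((1, 0), 1), ((2, 0), 0)],
   [((0, 0), 0), ((1, 0), 0), ((1, 0), 1), ((2, 0), 1)],
   [((0, 2), 1), ((1, 2), 0), ((1, 2), 1), ((2, 2), 0)],
   [((2, 0), 1), ((2, 1), 0), ((2, 1), 1), ((2, 2), 0)],
   [((0, 2), 0), ((1, 2), 0), ((1, 2), 1), ((2, 2), 1)],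
   [((2, 0), 0), ((2, 1), 0), ((2, 1), 1), ((2, 2), 1)],
   [((0, 1), 0), ((0, 1), 1), ((1, 0), 0), ((1, 0), 1), ((1, 1), 0), ((1, 1), 1)],
   [((0, 1), 0), ((0, 1), 1), ((1, 1), 0), ((1, 1), 1), ((1, 2), 0), ((1, 2), 1)],
   [((1, 0), 0), ((1, 0), 1), ((1, 1), 0), ((1, 1), 1), ((1, 2), 0), ((1, 2), 1)],
   [((0, 1), 0), ((0, 2), 0), ((1, 0), 0), ((1, 1), 0), ((1, 2), 0), ((2, 0), 0)],
   [((0, 1), 1), ((0, 2), 1), ((1, 0), 1), ((1, 1), 1), ((1, 2), 1), ((2, 0), 1)],
   [((0, 1), 0), ((0, 2), 0), ((1, 1), 0), ((1, 2), 0), ((2, 0), 0), ((2, 1), 0)],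
   [((0, 2), 0), ((1, 0), 0), ((1, 1), 0), ((1, 2), 0), ((2, 0), 0), ((2, 1), 0)],
   [((0, 1), 1), ((0, 2), 1), ((1, 1), 1), ((1, 2), 1), ((2, 0), 1), ((2, 1), 1)],
   [((0, 2), 1), ((1, 0), 1), ((1, 1), 1), ((1, 2), 1), ((2, 0), 1), ((2, 1), 1)],
   [((1, 0), 0), ((1, 0), 1), ((1, 1), 0), ((1, 1), 1), ((2, 1), 0), ((2, 1), 1)],
   [((1, 1), 0), ((1, 1), 1), ((1, 2), 0), ((1, 2), 1), ((2, 1), 0), ((2, 1), 1)],
   [((0, 0), 0), ((0, 1), 0), ((1, 0), 0), ((1, 1), 0), ((1, 2), 0), ((2, 2), 0)],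
   [((0, 0), 1), ((0, 1), 1), ((1, 0), 1), ((1, 1), 1), ((1, 2), 1), ((2, 2), 1)],
   [((0, 1), 1), ((0, 2), 1), ((1, 0), 0), ((1, 0), 1), ((1, 1), 1), ((1, 2), 1), ((2, 0), 0)],
   [((0, 1), 0), ((0, 2), 0), ((1, 0), 0), ((1, 0), 1), ((1, 1), 0), ((1, 2), 0), ((2, 0), 1)],
   [((0, 1), 0), ((0, 1), 1), ((0, 2), 1), ((1, 0), 0), ((1, 1), 0), ((2, 0), 0), ((2, 1), 0)],
   [((0, 1), 0), ((0, 1), 1), ((0, 2), 0), ((1, 0), 1), ((1, 1), 1), ((2, 0), 1), ((2, 1), 1)],
   [((0, 0), 1), ((0, 1), 1), ((1, 0), 1), ((1, 1), 1), ((1, 2), 0), ((1, 2), 1), ((2, 2), 0)],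
   [((0, 0), 1), ((0, 1), 0), ((0, 1), 1), ((1, 1), 0), ((1, 2), 0), ((2, 1), 0), ((2, 2), 0)],
   [((0, 0), 0), ((0, 1), 0), ((1, 0), 0), ((1, 1), 0), ((1, 2), 0), ((1, 2), 1), ((2, 2), 1)],
   [((0, 0), 0), ((0, 1), 0), ((0, 1), 1), ((1, 1), 1), ((1, 2), 1), ((2, 1), 1), ((2, 2), 1)],
   [((0, 1), 0), ((0, 1), 1), ((0, 2), 0), ((1, 0), 0), ((1, 0), 1), ((1, 1), 1), ((1, 2), 0), ((1, 2), 1), ((2, 0), 0)],
   [((0, 1), 0), ((0, 1), 1), ((0, 2), 1), ((1, 0), 0), ((1, 0), 1), ((1, 1), 0), ((1, 2), 0), ((1, 2), 1), ((2, 0), 1)],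
   [((0, 0), 0), ((0, 1), 0), ((0, 1), 1), ((1, 0), 0), ((1, 0), 1), ((1, 1), 1), ((1, 2), 0), ((1, 2), 1), ((2, 2), 0)],
   [((0, 0), 1), ((0, 1), 0), ((0, 1), 1), ((1, 0), 0), ((1, 0), 1), ((1, 1), 0), ((1, 2), 0), ((1, 2), 1), ((2, 2), 1)]]

theorem lower332 {k : ℕ} (h : Sz 3 3 2 k) : 8 ≤ k := by
  obtain ⟨A, rfl, hA⟩ := h
  have := slab_bound (p := 3) A hA 0 le_rfl
    (fun w => dp 3 w.1.1.val + dp 3 w.1.2.val + dp 2 w.2.val) (fun w => by simp) F332
    (by decide +kernel) 7 (by decide +kernel)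
  rw [ncard_layers]
  simp only [zero_add] at this
  exact this

def Fend : List (List ((Fin 1 × Fin 2) × Fin 2)) :=
  [[((0, 0), 0), ((0, 0), 1)], [((0, 1), 0), ((0, 1), 1)]]

def Fcube : List (List ((Fin 2 × Fin 2) × Fin 2)) :=
  [[((0, 0), 0), ((0, 0), 1), ((0, 1), 0), ((0, 1), 1)],
   [((1, 0), 0), ((1, 0), 1), ((1, 1), 0), ((1, 1), 1)],
   [((0, 0), 0), ((0, 0), 1), ((1, 0), 0), ((1, 0), 1)],
   [((0, 1), 0), ((0, 1), 1), ((1, 1), 0), ((1, 1), 1)],
   [((0, 0), 0), ((0, 1), 0), ((1, 0), 0), ((1, 1), 0)],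
   [((0, 0), 1), ((0, 1), 1), ((1, 0), 1), ((1, 1), 1)],
   [((0, 0), 1), ((0, 1), 0), ((0, 1), 1), ((1, 0), 0), ((1, 0), 1), ((1, 1), 0)],
   [((0, 0), 0), ((0, 1), 0), ((0, 1), 1), ((1, 0), 0), ((1, 0), 1), ((1, 1), 1)],
   [((0, 0), 0), ((0, 0), 1), ((0, 1), 1), ((1, 0), 0), ((1, 1), 0), ((1, 1), 1)],
   [((0, 0), 0), ((0, 0), 1), ((0, 1), 0), ((1, 0), 1), ((1, 1), 0), ((1, 1), 1)]]

theorem dp_two (y : Fin 2) : dp 2 y.val = 1 := by fin_cases y <;> rfl

theorem lower_tube {n k : ℕ} (hn : 2 ≤ n) (h : Sz n 2 2 k) : (3 * n + 2) / 2 ≤ k := by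
  obtain ⟨A, rfl, hA⟩ := h
  have h0 : 1 < layer A 0 := by
    have := slab_bound (p := 1) A hA 0 (by omega) (fun _ => 3) (fun w => by
      rw [dp_two, dp_two]
      have := w.1.1.2
      unfold dp
      split_ifs <;> omega) Fend (by decide +kernel) 1 (by decide +kernel)
    simpa using this
  have h1 : 1 < layer A (n - 1) := by
    have := slab_bound (p := 1) A hA (n - 1) (by omega) (fun _ => 3) (fun w => by
      rw [dp_two, dp_two]
      have := w.1.1.2
      unfold dp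
      split_ifs <;> omega) Fend (by decide +kernel) 1 (by decide +kernel)
    simpa using this
  have h2 : ∀ x, x + 2 ≤ n → 2 < layer A x + layer A (x + 1) := by
    intro x hx
    have := slab_bound (p := 2) A hA x hx (fun _ => 4) (fun w => by
      rw [dp_two, dp_two]
      unfold dp
      split_ifs <;> omega) Fcube (by decide +kernel) 2 (by decide +kernel)
    simpa [Finset.sum_range_succ] using this
  have h3 : ∀ m, 2 * m + 1 ≤ n → 3 * m + 2 ≤ ∑ x ∈ Finset.range (2 * m + 1), layer A x := by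
    intro m
    induction m with
    | zero =>
      intro _
      rw [Nat.mul_zero, Nat.zero_add, Finset.sum_range_one]
      omega
    | succ m ih =>
      intro hm
      have e := ih (by omega)
      have e' := h2 (2 * m + 1) (by omega)
      have e1 := Finset.sum_range_succ (layer A) (2 * m + 1)
      have e2 := Finset.sum_range_succ (layer A) (2 * m + 1 + 1)
      have e3 : ∑ x ∈ Finset.range (2 * (m + 1) + 1), layer A x =
          ∑ x ∈ Finset.range (2 * m + 1 + 1 + 1), layer A x := rfl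
      omega
  rw [ncard_layers]
  rcases Nat.even_or_odd' n with ⟨m, rfl | rfl⟩
  · obtain ⟨m, rfl⟩ : ∃ t, m = t + 1 := ⟨m - 1, by omega⟩
    have e := h3 m (by omega)
    rw [show 2 * (m + 1) - 1 = 2 * m + 1 by omega] at h1
    have e2 := Finset.sum_range_succ (layer A) (2 * m + 1)
    have e3 : ∑ x ∈ Finset.range (2 * (m + 1)), layer A x =
        ∑ x ∈ Finset.range (2 * m + 1 + 1), layer A x := rfl
    omega
  · have e := h3 m le_rfl
    omega

end Pool.Agent.P.MP_42d0fe_co
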