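import Pool.Agent.P.MP_42d0fe_co.Lower
import Pool.Agent.P.MP_42d0fe_co.Data2
import Pool.Agent.P.MP_42d0fe_co.Data3
import Pool.Agent.P.MP_42d0fe_co.Data4
import Pool.Agent.P.MP_42d0fe_co.Data5
import Pool.Agent.P.MP_42d0fe_co.Data6

set_option autoImplicit false

namespace Pool.Agent.P.MP_42d0fe_co

theorem opt2 {x y : ℕ} (hx : 3 ≤ x) (hy : 3 ≤ y) (h : ¬ (x = 3 ∧ y = 3)) : Opt x y 2 := by
  have h0 := allB_spec (allB_spec fams2_cov ((x - 3) % 6) (by omega)) ((y - 3) % 6) (by omega)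
  rw [Bool.or_eq_true, Bool.and_eq_true, Nat.beq_eq, Nat.beq_eq] at h0
  rcases h0 with ⟨h1, h2⟩ | h0
  · by_cases hy9 : 9 ≤ y
    · exact cov_sound fams2_good fams2_cov39 hx (by omega) hy9 (by omega)
    · exact (cov_sound fams2_good fams2_cov39 hy (by omega) (show 9 ≤ x by omega)
        (by omega)).swap12
  · exact cov_sound fams2_good h0 (by omega) (by omega) (by omega) (by omega)

theorem s3_of_opt {a b c : ℕ} (ha : 1 ≤ a) (hb : 1 ≤ b) (hc : 1 ≤ c) (h : Opt a b c) :
    s3 a b c = (a * b + a * c + b * c + 2) / 3 :=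
  s3_eq h fun m hm => by
    have := surface_bound ha hb hc hm
    omega

theorem sz_tube {n : ℕ} (hn : 2 ≤ n) (h3 : n ≠ 3) : Sz n 2 2 ((3 * n + 2) / 2) := by
  have h : n % 6 = 0 ∨ n % 6 = 1 ∨ n % 6 = 2 ∨ n % 6 = 3 ∨ n % 6 = 4 ∨ n % 6 = 5 := by omega
  rcases h with h | h | h | h | h | h
  · convert goodG_sound tube6 ((n - 6) / 6) 0 using 1 <;> omega
  · convert goodG_sound tube7 ((n - 7) / 6) 0 using 1 <;> omega
  · convert goodG_sound tube2 ((n - 2) / 6) 0 using 1 <;> omega
  · convert goodG_sound tube9 ((n - 9) / 6) 0 using 1 <;> omega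
  · convert goodG_sound tube4 ((n - 4) / 6) 0 using 1 <;> omega
  · convert goodG_sound tube5 ((n - 5) / 6) 0 using 1 <;> omega

theorem s3_tube {n : ℕ} (hn : 2 ≤ n) : s3 n 2 2 = if n = 3 then 6 else (3 * n + 2) / 2 := by
  split_ifs with h
  · subst h
    refine s3_eq (goodG_sound tube3 0 0) fun m hm => ?_
    have := surface_bound (by omega) (by omega) (by omega) hm
    omega
  · exact s3_eq (sz_tube hn h) fun m hm => lower_tube hn hm

theorem s3_332 : s3 3 3 2 = 8 := s3_eq (goodG_sound cube332 0 0) fun _ hm => lower332 hm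

theorem s3_sorted {a b c : ℕ} (h2 : 2 ≤ a) (h6 : a ≤ 6) (hab : a ≤ b) (hbc : b ≤ c) :
    s3 a b c = if a = 2 ∧ b = 2 then (if c = 3 then 6 else (3 * c + 2) / 2)
      else if a = 2 ∧ b = 3 ∧ c = 3 then 8 else (a * b + a * c + b * c + 2) / 3 := by
  rw [s3_swap12, s3_swap23]
  by_cases h1 : a = 2 ∧ b = 2
  · rw [if_pos h1, h1.1, h1.2, s3_swap12, s3_tube (by omega)]
  rw [if_neg h1]
  by_cases h3 : a = 2 ∧ b = 3 ∧ c = 3
  · rw [if_pos h3, h3.1, h3.2.1, h3.2.2, s3_332]
  rw [if_neg h3]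
  have ho : Opt b c a := by
    interval_cases a
    · exact opt2 (by omega) (by omega) (by omega)
    · exact cov_window fams3_good fams3_cov hab (by omega)
    · exact cov_window fams4_good fams4_cov hab (by omega)
    · exact cov_window fams5_good fams5_cov hab (by omega)
    · exact cov_window fams6_good fams6_cov hab (by omega)
  rw [s3_of_opt (by omega) (by omega) (by omega) ho]
  congr 1
  ring

theorem s3_perm {x y z a b c : ℕ} (h : ({x, y, z} : Multiset ℕ) = {a, b, c}) :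
    s3 x y z = s3 a b c := by
  have hx : x ∈ ({a, b, c} : Multiset ℕ) := by rw [← h]; simp
  have pair : ∀ p q r s : ℕ, ({p, q} : Multiset ℕ) = {r, s} → p = r ∧ q = s ∨ p = s ∧ q = r := by
    intro p q r s e
    have hp : p ∈ ({r, s} : Multiset ℕ) := by rw [← e]; simp
    simp only [Multiset.insert_eq_cons, Multiset.mem_cons, Multiset.mem_singleton] at hp
    rcases hp with rfl | rfl
    · left
      simpa using e
    · right
      rw [Multiset.pair_comm r p] at e
      simpa using e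
  simp only [Multiset.insert_eq_cons, Multiset.mem_cons, Multiset.mem_singleton] at hx
  rcases hx with rfl | rfl | rfl
  · have e : ({y, z} : Multiset ℕ) = {b, c} := by
      simpa only [Multiset.insert_eq_cons, Multiset.cons_inj_right] using h
    rcases pair _ _ _ _ e with ⟨rfl, rfl⟩ | ⟨rfl, rfl⟩
    · rfl
    · exact s3_swap23 _ _ _
  · have e : ({y, z} : Multiset ℕ) = {a, c} := by
      simp only [Multiset.insert_eq_cons] at h ⊢
      rw [Multiset.cons_swap a x] at h
      simpa only [Multiset.cons_inj_right] using h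
    rcases pair _ _ _ _ e with ⟨rfl, rfl⟩ | ⟨rfl, rfl⟩
    · exact s3_swap12 _ _ _
    · rw [s3_swap23, s3_swap12]
  · have e : ({y, z} : Multiset ℕ) = {a, b} := by
      rw [Multiset.pair_comm b x] at h
      simp only [Multiset.insert_eq_cons] at h ⊢
      rw [Multiset.cons_swap a x] at h
      simpa only [Multiset.cons_inj_right] using h
    rcases pair _ _ _ _ e with ⟨rfl, rfl⟩ | ⟨rfl, rfl⟩
    · rw [s3_swap12, s3_swap23]
    · rw [s3_swap12, s3_swap23, s3_swap12]

theorem ceil_third (n : ℕ) : ⌈(n : ℚ) / 3⌉₊ = (n + 2) / 3 := by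
  have h1 : n ≤ 3 * ((n + 2) / 3) := by omega
  apply le_antisymm
  · rw [Nat.ceil_le, div_le_iff₀ (by norm_num)]
    exact_mod_cast (by omega : n ≤ (n + 2) / 3 * 3)
  · have h2 := Nat.le_ceil ((n : ℚ) / 3)
    rw [div_le_iff₀ (by norm_num)] at h2
    have h3 : n ≤ ⌈(n : ℚ) / 3⌉₊ * 3 := by exact_mod_cast h2
    omega

end Pool.Agent.P.MP_42d0fe_co
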